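import Pool.Agent.Helper32.NO.Defs

/-!
# P11: the image of a block with one simple module in `G/Q`, `Q` a normal `2`-subgroup
-/

set_option autoImplicit false
open scoped BigOperators MonoidAlgebra
open Classical

namespace Pool.Agent.Helper44.NO

open Pool.Agent.Helper36.NB Pool.Agent.Helper44.S3 Pool.Agent.Helper32.ND
open Pool.Agent.Helper32.NO

section fixed

/-- A `2`-group acting on a nonzero vector space of characteristic `2` has a nonzero fixed
vector. -/
theorem exists_fixed {k : Type} [Field k] [CharP k 2] {V : Type} [AddCommGroup V] [Module k V]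
    [Nontrivial V] {P : Type} [Group P] [Finite P] (hP : IsPGroup 2 P) (ρ : P →* (V →ₗ[k] V)) :
    ∃ v : V, v ≠ 0 ∧ ∀ u, ρ u v = v := by
  obtain ⟨v0, hv0⟩ := exists_ne (0 : V)
  letI : Module (ZMod 2) V := AddCommGroup.zmodModule (n := 2) (by
    intro x
    have h2 : (2 : k) = 0 := CharP.cast_eq_zero k 2
    have : (2 : ℕ) • x = (2 : k) • x := by
      rw [two_smul, two_smul]
    rw [this, h2, zero_smul])
  let W : Submodule (ZMod 2) V := Submodule.span (ZMod 2) (Set.range fun u : P => ρ u v0)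
  have hWfin : Finite W := by
    have h1 : Module.Finite (ZMod 2) W := Module.Finite.span_of_finite _ (Set.finite_range _)
    exact Module.finite_of_finite (ZMod 2)
  have hv0W : v0 ∈ W := Submodule.subset_span ⟨1, by simp⟩
  have hstab : ∀ (u : P) (w : V), w ∈ W → ρ u w ∈ W := by
    intro u w hw
    refine Submodule.span_induction (p := fun w _ => ρ u w ∈ W) ?_ ?_ ?_ ?_ hw
    · rintro _ ⟨u', rfl⟩
      refine Submodule.subset_span ⟨u * u', ?_⟩
      simp
    · simp
    · intro x y _ _ hx hy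
      rw [map_add]
      exact W.add_mem hx hy
    · intro c x _ hx
      have : ρ u (c • x) = c • ρ u x := ZMod.map_smul (ρ u).toAddMonoidHom c x
      rw [this]
      exact W.smul_mem c hx
  letI : MulAction P W :=
    { smul := fun u w => ⟨ρ u w, hstab u w w.2⟩
      one_smul := fun w => Subtype.ext (by
        change ρ 1 (w : V) = w
        rw [map_one]; rfl)
      mul_smul := fun u u' w => Subtype.ext (by
        change ρ (u * u') (w : V) = ρ u (ρ u' w)
        rw [map_mul]; rfl) }
  have h0 : (0 : W) ∈ MulAction.fixedPoints P W := by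
    intro u
    exact Subtype.ext (map_zero (ρ u))
  have hcard : 2 ∣ Nat.card W := by
    have h1 : Nontrivial W := ⟨⟨⟨v0, hv0W⟩, 0, fun h => hv0 (congrArg Subtype.val h)⟩⟩
    have h4 : addOrderOf (⟨v0, hv0W⟩ : W) = 2 := by
      apply addOrderOf_eq_prime
      · apply Subtype.ext
        change (2 : ℕ) • (v0 : V) = 0
        have h2 : (2 : k) = 0 := CharP.cast_eq_zero k 2
        have : (2 : ℕ) • (v0 : V) = (2 : k) • (v0 : V) := by
          rw [two_smul, two_smul]
        rw [this, h2, zero_smul]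
      · intro h
        exact hv0 (congrArg Subtype.val h)
    have h5 := addOrderOf_dvd_natCard (⟨v0, hv0W⟩ : W)
    rw [h4] at h5
    exact h5
  obtain ⟨b, hb, hb0⟩ := hP.exists_fixed_point_of_prime_dvd_card_of_fixed_point W hcard h0
  refine ⟨b, fun h => hb0 (Subtype.ext h.symm), fun u => ?_⟩
  exact congrArg Subtype.val (hb u)

/-- A normal `2`-subgroup acts trivially. -/
theorem rho_normal {k : Type} [Field k] [CharP k 2] {G : Type} [Group G] [Finite G]
    {b : MonoidAlgebra k G} (S : SimpleQuot b) (Q : Subgroup G) [Q.Normal] (hQ : IsPGroup 2 Q)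
    (u : G) (hu : u ∈ Q) : S.ρ (el k u) = 1 := by
  haveI : Nonempty (Fin S.n) := ⟨⟨0, S.pos⟩⟩
  -- the action on column vectors
  let A : G → ((Fin S.n → k) →ₗ[k] (Fin S.n → k)) := fun g => Matrix.toLin' (S.ρ (el k g))
  have hA : ∀ g h, A (g * h) = (A g).comp (A h) := by
    intro g h
    change Matrix.toLin' (S.ρ (el k (g * h))) = _
    rw [el_mul, map_mul, Matrix.toLin'_mul]
  have hA1 : A 1 = LinearMap.id := by
    change Matrix.toLin' (S.ρ (el k 1)) = _
    rw [el_one, map_one, Matrix.toLin'_one]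
  let ρ : Q →* ((Fin S.n → k) →ₗ[k] (Fin S.n → k)) :=
    { toFun := fun v => A v
      map_one' := hA1
      map_mul' := fun x y => hA x y }
  obtain ⟨v, hv0, hv⟩ := exists_fixed hQ ρ
  have hv' : ∀ w ∈ Q, A w v = v := fun w hw => hv ⟨w, hw⟩
  have hall : ∀ (g : G), ∀ w ∈ Q, A w (A g v) = A g v := by
    intro g w hw
    have h1 : g⁻¹ * w * g ∈ Q := by
      have := Subgroup.Normal.conj_mem inferInstance w hw g⁻¹
      simpa using this
    calc A w (A g v) = A (w * g) v := by rw [hA]; rfl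
      _ = A (g * (g⁻¹ * w * g)) v := by congr 2; group
      _ = A g (A (g⁻¹ * w * g) v) := by rw [hA]; rfl
      _ = A g v := by rw [hv' _ h1]
  have hspan : ∀ (a : MonoidAlgebra k G), ∀ w ∈ Q,
      A w (Matrix.toLin' (S.ρ a) v) = Matrix.toLin' (S.ρ a) v := by
    intro a w hw
    induction a using MonoidAlgebra.induction_linear with
    | zero => simp
    | add x y hx hy => rw [map_add, map_add, LinearMap.add_apply, map_add, hx, hy]
    | single g c =>
      have h1 : (MonoidAlgebra.single g c : MonoidAlgebra k G) = c • el k g := by simp [el]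
      rw [h1, map_smul, map_smul, LinearMap.smul_apply, map_smul]
      congr 1
      exact hall g w hw
  -- every vector is of the form `ρ(a) v`
  obtain ⟨i0, hi0⟩ : ∃ i, v i ≠ 0 := by
    by_contra h
    push Not at h
    exact hv0 (funext h)
  have hfix : ∀ w : Fin S.n → k, A u w = w := by
    intro w
    obtain ⟨a, ha⟩ := S.surj (Matrix.of fun i j => if j = i0 then w i * (v i0)⁻¹ else 0)
    have h1 : Matrix.toLin' (S.ρ a) v = w := by
      rw [ha, Matrix.toLin'_apply]
      funext i
      rw [Matrix.mulVec, dotProduct, Finset.sum_eq_single i0]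
      · rw [Matrix.of_apply, if_pos rfl, mul_assoc, inv_mul_cancel₀ hi0, mul_one]
      · intro j _ hj
        rw [Matrix.of_apply, if_neg hj, zero_mul]
      · intro h
        exact absurd (Finset.mem_univ _) h
    rw [← h1]
    exact hspan a u hu
  have h3 : Matrix.toLin' (S.ρ (el k u)) = Matrix.toLin' 1 := by
    rw [Matrix.toLin'_one]
    exact LinearMap.ext hfix
  exact Matrix.toLin'.injective h3

end fixed

variable {O : ValuationSubring ℂ} {G : Type} [Group G] [Fintype G]

theorem toK_pr (Q : Subgroup G) [Q.Normal] (a : MonoidAlgebra O G) :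
    toK O (G ⧸ Q) (pr O Q a) = prR (resK O) Q (toK O G a) := by
  rw [pr_eq, toK_mapDomain]
  rfl

/-- The simple module as a module of `G/Q`. -/
theorem exists_S1 (h2 : (2 : O) ∈ IsLocalRing.maximalIdeal O) (e : MonoidAlgebra O G)
    (S : SimpleQuot (toK O G e)) (Q : Subgroup G) [Q.Normal] (hQ : IsPGroup 2 Q) :
    ∃ ρ1 : MonoidAlgebra (resK O) (G ⧸ Q) →ₐ[resK O] Matrix (Fin S.n) (Fin S.n) (resK O),
      ∀ a, ρ1 (prR (resK O) Q a) = S.ρ a := by
  have hchar : CharP (resK O) 2 := resK_charP O h2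
  let f : G →* Matrix (Fin S.n) (Fin S.n) (resK O) :=
    { toFun := fun g => S.ρ (el (resK O) g)
      map_one' := by rw [el_one, map_one]
      map_mul' := fun x y => by rw [el_mul, map_mul] }
  have hf : ∀ u ∈ Q, f u = 1 := fun u hu => rho_normal S Q hQ u hu
  let F : (G ⧸ Q) →* Matrix (Fin S.n) (Fin S.n) (resK O) := QuotientGroup.lift Q f hf
  refine ⟨MonoidAlgebra.lift (resK O) _ (G ⧸ Q) F, ?_⟩
  intro a
  induction a using MonoidAlgebra.induction_linear with
  | zero => simp
  | add x y hx hy => rw [map_add, map_add, map_add, hx, hy]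
  | single g c =>
    have h1 : prR (resK O) Q (MonoidAlgebra.single g c) =
        MonoidAlgebra.single (g : G ⧸ Q) c := by
      unfold prR
      rw [MonoidAlgebra.mapDomainRingHom_apply, MonoidAlgebra.mapDomain_single]
      rfl
    rw [h1, MonoidAlgebra.lift_single]
    have h3 : F (g : G ⧸ Q) = S.ρ (el (resK O) g) := rfl
    rw [h3, ← map_smul]
    congr 1
    simp [el]

theorem prR_surj {R : Type} [CommRing R] (Q : Subgroup G) [Q.Normal] :
    Function.Surjective (prR R Q : MonoidAlgebra R G →+* MonoidAlgebra R (G ⧸ Q)) := by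
  intro y
  induction y using MonoidAlgebra.induction_linear with
  | zero => exact ⟨0, map_zero _⟩
  | add x y hx hy =>
    obtain ⟨x', rfl⟩ := hx
    obtain ⟨y', rfl⟩ := hy
    exact ⟨x' + y', map_add _ _ _⟩
  | single g r =>
    obtain ⟨g', rfl⟩ := QuotientGroup.mk_surjective g
    refine ⟨MonoidAlgebra.single g' r, ?_⟩
    unfold prR
    rw [MonoidAlgebra.mapDomainRingHom_apply, MonoidAlgebra.mapDomain_single]
    rfl

/-- A central idempotent with a simple quotient is a block. -/
theorem block_of_simple (B : MonoidAlgebra O G) (hB : B * B = B) (hBc : ∀ a, a * B = B * a)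
    (S : SimpleQuot (toK O G B)) : IsBlock B := by
  haveI : Nonempty (Fin S.n) := ⟨⟨0, S.pos⟩⟩
  refine ⟨?_, hB, hBc, ?_⟩
  · intro h0
    have h1 := S.one
    have h3 : toK O G B = 0 := by rw [h0, map_zero]
    have h4 : S.ρ (toK O G B) = 0 := (congrArg S.ρ h3).trans (map_zero _)
    exact one_ne_zero (h1.symm.trans h4)
  · intro f hf hfc
    -- `ρ(f)` is central
    have hρc : ∀ M, M * S.ρ (toK O G f) = S.ρ (toK O G f) * M := by
      intro M
      obtain ⟨a, rfl⟩ := S.surj M
      rw [← map_mul, ← map_mul, toK_central hfc]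
    have hρi : S.ρ (toK O G f) * S.ρ (toK O G f) = S.ρ (toK O G f) := by
      rw [← map_mul, ← map_mul, hf]
    obtain ⟨c, hc⟩ : ∃ c : resK O, Matrix.scalar (Fin S.n) c = S.ρ (toK O G f) := by
      have h1 : S.ρ (toK O G f) ∈ Set.range (Matrix.scalar (Fin S.n)) := by
        apply Matrix.mem_range_scalar_of_commute_single
        intro i j _
        exact hρc _
      exact h1
    have hcc : c * c = c := by
      have h1 : Matrix.scalar (Fin S.n) (c * c) = Matrix.scalar (Fin S.n) c := by
        rw [map_mul, hc, hρi]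
      exact Matrix.scalar_inj.mp h1
    have hfB : f * B * (f * B) = f * B := by
      calc f * B * (f * B) = f * (B * f) * B := by noncomm_ring
        _ = f * (f * B) * B := by rw [← hBc f]
        _ = (f * f) * (B * B) := by noncomm_ring
        _ = f * B := by rw [hf, hB]
    have hnil0 : ∀ y : MonoidAlgebra O G, y * y = y → IsNilpotent (toK O G y) → y = 0 := by
      intro y hy hn
      apply idem_eq_zero O hy
      obtain ⟨m, hm⟩ := hn
      have hy' : toK O G y * toK O G y = toK O G y := by rw [← map_mul, hy]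
      have h1 : ∀ m : ℕ, toK O G y ^ (m + 1) = toK O G y := by
        intro m
        induction m with
        | zero => rw [zero_add, pow_one]
        | succ m ih => rw [pow_succ, ih, hy']
      have h3 := h1 m
      rw [pow_succ, hm, zero_mul] at h3
      exact h3.symm
    have hcc' : c = 0 ∨ c = 1 := by
      have h1 : c * (c - 1) = 0 := by rw [mul_sub, mul_one, hcc, sub_self]
      rcases mul_eq_zero.mp h1 with h | h
      · exact Or.inl h
      · exact Or.inr (sub_eq_zero.mp h)
    rcases hcc' with h | h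
    · left
      apply hnil0 _ hfB
      rw [map_mul]
      apply S.nil
      rw [← hc, h, map_zero]
    · right
      have h1 : (1 - f) * B = 0 := by
        apply hnil0
        · have h3 : (1 - f) * (1 - f) = 1 - f := by
            rw [mul_sub, sub_mul, sub_mul, one_mul, mul_one, one_mul, hf, sub_self, sub_zero]
          have h4 : B * (1 - f) = (1 - f) * B := (hBc (1 - f)).symm
          calc (1 - f) * B * ((1 - f) * B) = (1 - f) * (B * (1 - f)) * B := by noncomm_ring
            _ = (1 - f) * (1 - f) * (B * B) := by rw [h4]; noncomm_ring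
            _ = (1 - f) * B := by rw [h3, hB]
        · rw [map_mul]
          apply S.nil
          rw [map_sub, map_sub, map_one, map_one, ← hc, h, map_one, sub_self]
      rw [sub_mul, one_mul, sub_eq_zero] at h1
      exact h1.symm

/-- Elements of odd order with the same image. -/
theorem eq_of_mk (Q : Subgroup G) [Q.Normal] (hQ : IsPGroup 2 Q) (y z : G)
    (hy : Odd (orderOf y)) (hz : Odd (orderOf z)) (hyz : (y : G ⧸ Q) = z)
    (hc : ∀ q ∈ Q, q * y = y * q) : y = z := by
  rw [QuotientGroup.eq] at hyz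
  set q := y⁻¹ * z with hq
  have hzq : z = y * q := by rw [hq]; group
  have hcom : Commute y q := (hc q hyz).symm
  have h1 : (y * q) ^ orderOf z = 1 := by rw [← hzq, pow_orderOf_eq_one]
  have h3 : (y * q) ^ (orderOf z * orderOf y) = 1 := by rw [pow_mul, h1, one_pow]
  rw [hcom.mul_pow, mul_comm (orderOf z), pow_mul y, pow_orderOf_eq_one, one_pow, one_mul] at h3
  obtain ⟨k, hk⟩ := hQ ⟨q, hyz⟩
  have hk' : q ^ 2 ^ k = 1 := by
    have := congrArg Subtype.val hk
    simpa using this
  have h4 : orderOf q ∣ Nat.gcd (orderOf y * orderOf z) (2 ^ k) :=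
    Nat.dvd_gcd (orderOf_dvd_of_pow_eq_one h3) (orderOf_dvd_of_pow_eq_one hk')
  have h5 : Nat.gcd (orderOf y * orderOf z) (2 ^ k) = 1 :=
    Nat.Coprime.pow_right _ (Nat.coprime_two_right.2 (hy.mul hz))
  rw [h5, Nat.dvd_one, orderOf_eq_one_iff] at h4
  rw [hzq, h4, mul_one]

theorem odd_conj {x g : G} (hx : Odd (orderOf x)) : Odd (orderOf (g * x * g⁻¹)) := by
  have h := (MulAut.conj g).orderOf_eq x
  rw [MulAut.conj_apply] at h
  rw [h]
  exact hx

/-- The conjugacy class of `x` as a finite set. -/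
noncomputable def cls {H : Type} [Group H] [Fintype H] (x : H) : Finset H :=
  Finset.univ.filter (fun g : H => IsConj x g)

theorem mem_cls {H : Type} [Group H] [Fintype H] {x g : H} : g ∈ cls x ↔ IsConj x g := by
  unfold cls
  rw [Finset.mem_filter]
  exact ⟨fun h => h.2, fun h => ⟨Finset.mem_univ _, h⟩⟩

theorem classSum_eq (R : Type) [CommRing R] {H : Type} [Group H] [Fintype H] (x : H) :
    classSum R x = ∑ g ∈ cls x, el R g := rfl

theorem pr_classSum (Q : Subgroup G) [Q.Normal] [Fintype (G ⧸ Q)] (hQ : IsPGroup 2 Q) (x : G)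
    (hx : Odd (orderOf x)) (hc : ∀ q ∈ Q, q * x = x * q) :
    pr O Q (classSum O x) = classSum O (x : G ⧸ Q) := by
  rw [classSum_eq, classSum_eq, map_sum]
  refine Finset.sum_bij (fun g _ => (g : G ⧸ Q)) ?_ ?_ ?_ ?_
  · intro g hg
    rw [mem_cls] at hg ⊢
    obtain ⟨c, hcx⟩ := isConj_iff.mp hg
    refine isConj_iff.mpr ⟨(c : G ⧸ Q), ?_⟩
    rw [← hcx]
    rfl
  · intro g hg g' hg' h
    rw [mem_cls] at hg hg'
    obtain ⟨c, hcx⟩ := isConj_iff.mp hg
    obtain ⟨c', hcx'⟩ := isConj_iff.mp hg'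
    refine eq_of_mk Q hQ g g' ?_ ?_ h ?_
    · rw [← hcx]; exact odd_conj hx
    · rw [← hcx']; exact odd_conj hx
    · intro q hq
      have h1 : c⁻¹ * q * c ∈ Q := by
        have := Subgroup.Normal.conj_mem inferInstance q hq c⁻¹
        simpa using this
      have h3 := hc _ h1
      rw [← hcx]
      calc q * (c * x * c⁻¹) = c * ((c⁻¹ * q * c) * x) * c⁻¹ := by group
        _ = c * (x * (c⁻¹ * q * c)) * c⁻¹ := by rw [h3]
        _ = c * x * c⁻¹ * q := by group
  · intro w hw
    rw [mem_cls] at hw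
    obtain ⟨c, hcx⟩ := isConj_iff.mp hw
    obtain ⟨c0, rfl⟩ := QuotientGroup.mk_surjective c
    refine ⟨c0 * x * c0⁻¹, ?_, ?_⟩
    · exact mem_cls.mpr (isConj_iff.mpr ⟨c0, rfl⟩)
    · rw [← hcx]
      rfl
  · intro g _
    exact pr_el O Q g

theorem card_map (Q D : Subgroup G) [Q.Normal] (h : Q ≤ D) :
    Nat.card D = Nat.card (D.map (QuotientGroup.mk' Q)) * Nat.card Q := by
  have h1 := card_pull Q (fun w : G ⧸ Q => w ∈ D.map (QuotientGroup.mk' Q))
  have h3 : Nat.card {g : G // (g : G ⧸ Q) ∈ D.map (QuotientGroup.mk' Q)} = Nat.card D :=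
    Nat.card_congr (Equiv.subtypeEquivRight fun g => mem_map_mk Q D h g)
  rw [h3] at h1
  rw [h1, mul_comm]

theorem card_two (Q D C : Subgroup G) [Q.Normal] (hQ : IsPGroup 2 Q) (hQD : Q ≤ D) (hQC : Q ≤ C)
    (hD : Nat.card D = 2 ^ (Nat.card C).factorization 2) (C' : Subgroup (G ⧸ Q))
    (hC' : ∀ g : G, (g : G ⧸ Q) ∈ C' ↔ g ∈ C) :
    Nat.card (D.map (QuotientGroup.mk' Q)) = 2 ^ (Nat.card C').factorization 2 := by
  have hC'' : C' = C.map (QuotientGroup.mk' Q) := by
    ext w
    obtain ⟨g, rfl⟩ := QuotientGroup.mk_surjective w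
    rw [hC', mem_map_mk Q C hQC]
  subst hC''
  obtain ⟨m, hm⟩ := IsPGroup.iff_card.mp hQ
  have h1 := card_map Q D hQD
  have h3 := card_map Q C hQC
  rw [hm] at h1 h3
  have hC0 : Nat.card (C.map (QuotientGroup.mk' Q)) ≠ 0 := Nat.card_pos.ne'
  have h4 : (Nat.card C).factorization 2 =
      (Nat.card (C.map (QuotientGroup.mk' Q))).factorization 2 + m := by
    rw [h3, Nat.factorization_mul hC0 (pow_ne_zero _ two_ne_zero),
      Nat.Prime.factorization_pow Nat.prime_two]
    simp
  rw [h4, h1, pow_add] at hD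
  exact Nat.eq_of_mul_eq_mul_right (pow_pos two_pos m) hD

/-- P11: the image of a block with one simple module in `G/Q`, `Q` a normal `2`-subgroup -/
theorem quot_block (h2 : (2 : O) ∈ IsLocalRing.maximalIdeal O) (e : MonoidAlgebra O G)
    (he : IsBlock e) (her : inv' e = e) (S : SimpleQuot (toK O G e)) (x : G)
    (hx : IsDefectClass O e x) (D E : Subgroup G) (hDE : IsDefectPair x D E) (Q : Subgroup G)
    [Q.Normal] (hQD : Q ≤ D) [Fintype (G ⧸ Q)] :
    IsBlock (pr O Q e) ∧ inv' (pr O Q e) = pr O Q e ∧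
      (∃ S1 : SimpleQuot (toK O (G ⧸ Q) (pr O Q e)), S1.n = S.n) ∧
      IsDefectClass O (pr O Q e) (x : G ⧸ Q) ∧
      IsDefectPair (x : G ⧸ Q) (D.map (QuotientGroup.mk' Q)) (E.map (QuotientGroup.mk' Q)) := by
  obtain ⟨he0, hee, hec, -⟩ := he
  have hD2 : IsPGroup 2 D := IsPGroup.of_card hDE.2.2.2.1
  have hQ : IsPGroup 2 Q := hD2.to_le hQD
  obtain ⟨ρ1, hρ1⟩ := exists_S1 h2 e S Q hQ
  have hqe : pr O Q e * pr O Q e = pr O Q e := by rw [← map_mul, hee]
  have hqc : ∀ a, a * pr O Q e = pr O Q e * a := by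
    intro a
    obtain ⟨a', rfl⟩ := pr_surj O Q a
    rw [← map_mul, ← map_mul, hec]
  let S1 : SimpleQuot (toK O (G ⧸ Q) (pr O Q e)) :=
    { n := S.n
      ρ := ρ1
      pos := S.pos
      surj := by
        intro M
        obtain ⟨a, rfl⟩ := S.surj M
        exact ⟨_, hρ1 a⟩
      one := by rw [toK_pr, hρ1, S.one]
      nil := by
        intro a ha
        obtain ⟨a', rfl⟩ := prR_surj Q a
        rw [hρ1] at ha
        have h1 := (S.nil a' ha).map (prR (resK O) Q)
        rwa [map_mul, ← toK_pr] at h1 }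
  have hQx : ∀ q ∈ Q, q * x = x * q := by
    intro q hq
    exact Subgroup.mem_centralizer_singleton_iff.mp (hDE.2.1 (hQD hq))
  have hex0 : e.coeff x ≠ 0 := by
    intro h
    apply hx.2.1
    rw [h, map_zero]
  have hoddx : Odd (orderOf (x : G ⧸ Q)) := by
    have h1 : orderOf ((QuotientGroup.mk' Q) x) ∣ orderOf x := orderOf_map_dvd _ x
    exact hx.1.of_dvd_nat h1
  refine ⟨block_of_simple _ hqe hqc S1, by rw [← pr_inv, her], ⟨S1, rfl⟩, ⟨hoddx, ?_, ?_⟩, ?_⟩
  · rw [pr_coeff_odd O h2 e hee hec S Q hQ x hx.1]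
    exact hx.2.1
  · intro hn
    apply hx.2.2
    rw [← pr_classSum Q hQ x hx.1 hQx, ← map_mul, toK_pr] at hn
    have h1 : IsNilpotent (S.ρ (toK O G (classSum O x * e))) := by
      have h3 := hn.map ρ1
      rwa [hρ1] at h3
    obtain ⟨m, hm⟩ := h1
    rw [← map_pow] at hm
    obtain ⟨l, hl⟩ := S.nil _ hm
    have hz : toK O G (classSum O x * e) * toK O G e = toK O G (classSum O x * e) := by
      rw [← map_mul, mul_assoc, hee]
    have hzc : Commute (toK O G (classSum O x * e)) (toK O G e) := by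
      change _ * _ = _ * _
      rw [toK_central hec]
    refine ⟨(m + 1) * l, ?_⟩
    have h4 : (toK O G (classSum O x * e) ^ (m + 1)) =
        toK O G (classSum O x * e) * (toK O G (classSum O x * e) ^ m * toK O G e) := by
      rw [← mul_assoc, ← pow_succ', pow_succ, mul_assoc, hz]
    have h5 : Commute (toK O G (classSum O x * e))
        (toK O G (classSum O x * e) ^ m * toK O G e) :=
      (Commute.pow_right (Commute.refl _) m).mul_right hzc
    rw [pow_mul, h4, h5.mul_pow, hl, mul_zero]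
  · have hxinv : ∀ q ∈ Q, q * x⁻¹ = x⁻¹ * q := by
      intro q hq
      have h1 : Commute q x := hQx q hq
      exact h1.inv_right
    have hmkconj : ∀ g : G, (g : G ⧸ Q) * x * (g : G ⧸ Q)⁻¹ = ((g * x * g⁻¹ : G) : G ⧸ Q) :=
      fun g => rfl
    have hiff1 : ∀ g : G, (g : G ⧸ Q) * x * (g : G ⧸ Q)⁻¹ = x ↔ g * x * g⁻¹ = x := by
      intro g
      constructor
      · intro h
        exact (eq_of_mk Q hQ x (g * x * g⁻¹) hx.1 (odd_conj hx.1)
          (by rw [← hmkconj, h]) hQx).symm
      · intro h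
        rw [hmkconj, h]
    have hiff2 : ∀ g : G, (g : G ⧸ Q) * x * (g : G ⧸ Q)⁻¹ = (x : G ⧸ Q)⁻¹ ↔
        g * x * g⁻¹ = x⁻¹ := by
      intro g
      constructor
      · intro h
        refine (eq_of_mk Q hQ x⁻¹ (g * x * g⁻¹) ?_ (odd_conj hx.1) ?_ hxinv).symm
        · rw [orderOf_inv]; exact hx.1
        · rw [← hmkconj, h]; rfl
      · intro h
        rw [hmkconj, h]
        rfl
    have hcentQ : ∀ g : G, (g : G ⧸ Q) ∈ cent (x : G ⧸ Q) ↔ g ∈ cent x := by
      intro g
      rw [mem_cent_iff, mem_cent_iff]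
      exact hiff1 g
    have hextQ : ∀ g : G, (g : G ⧸ Q) ∈ extCent (x : G ⧸ Q) ↔ g ∈ extCent x := by
      intro g
      change ((g : G ⧸ Q) * x * (g : G ⧸ Q)⁻¹ = x ∨ (g : G ⧸ Q) * x * (g : G ⧸ Q)⁻¹ =
        (x : G ⧸ Q)⁻¹) ↔ (g * x * g⁻¹ = x ∨ g * x * g⁻¹ = x⁻¹)
      rw [hiff1, hiff2]
    have hQE : Q ≤ E := hQD.trans hDE.1
    refine ⟨Subgroup.map_mono hDE.1, ?_, ?_, ?_, ?_⟩
    · rintro _ ⟨g, hg, rfl⟩
      exact (hcentQ g).2 (hDE.2.1 hg)
    · rintro _ ⟨g, hg, rfl⟩
      exact (hextQ g).2 (hDE.2.2.1 hg)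
    · exact card_two Q D (cent x) hQ hQD (hQD.trans hDE.2.1) hDE.2.2.2.1 _ hcentQ
    · exact card_two Q E (extCent x) hQ hQE (hQE.trans hDE.2.2.1) hDE.2.2.2.2 _ hextQ

end Pool.Agent.Helper44.NO
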