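import Pool.Agent.Helper32.NO.Defs

/-!
# P9 and P9b: the top level of the induction for nilpotent real blocks
-/

set_option autoImplicit false
open scoped BigOperators MonoidAlgebra
open Classical

namespace Pool.Agent.Helper44.NO

open Pool.Agent.Helper36.NB Pool.Agent.Helper44.S3 Pool.Agent.Helper32.ND
open Pool.Agent.Helper32.NO

section pairs

variable {k : Type} [Field k] {G : Type} [Group G]

theorem one_of {D : Subgroup G} {e : MonoidAlgebra k G} (h : NilpotentPairs D e)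
    (q : MonoidAlgebra k G) (hq : IsSource D e q) (Q : Subgroup G) (hQ : Q ≤ D)
    (H : Subgroup G) (hH : H = Subgroup.centralizer (Q : Set G)) (b : MonoidAlgebra k H)
    (hb : IsBlock b) (hne : res H q * b ≠ 0) : OneSimple b := by
  subst hH
  exact h.one q hq Q hQ b ⟨hb, hne⟩

theorem fus_of {D : Subgroup G} {e : MonoidAlgebra k G} (h : NilpotentPairs D e)
    (q : MonoidAlgebra k G) (hq : IsSource D e q) (Q Q' : Subgroup G) (hQ : Q ≤ D) (hQ' : Q' ≤ D)
    (H H' : Subgroup G) (hH : H = Subgroup.centralizer (Q : Set G))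
    (hH' : H' = Subgroup.centralizer (Q' : Set G))
    (b : MonoidAlgebra k H) (b' : MonoidAlgebra k H')
    (hb : IsBlock b) (hb' : IsBlock b') (hne : res H q * b ≠ 0) (hne' : res H' q * b' ≠ 0)
    (g : G) (hg : ∀ u, u ∈ Q ↔ g * u * g⁻¹ ∈ Q')
    (hgb : el k g * incl k H b * el k g⁻¹ = incl k H' b') :
    ∃ d ∈ D, ∀ u ∈ Q, d * u * d⁻¹ = g * u * g⁻¹ := by
  subst hH
  subst hH'
  exact h.fus q hq Q Q' hQ hQ' b b' ⟨hb, hne⟩ ⟨hb', hne'⟩ g hg hgb

theorem zpowers_iff (u v g : G) (h : g * u * g⁻¹ = v) (w : G) :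
    w ∈ Subgroup.zpowers u ↔ g * w * g⁻¹ ∈ Subgroup.zpowers v := by
  have hz : ∀ n : ℤ, g * u ^ n * g⁻¹ = v ^ n := by
    intro n
    rw [← h, conj_zpow]
  constructor
  · intro hw
    obtain ⟨n, rfl⟩ := Subgroup.mem_zpowers_iff.mp hw
    exact Subgroup.mem_zpowers_iff.mpr ⟨n, (hz n).symm⟩
  · intro hw
    obtain ⟨n, hn⟩ := Subgroup.mem_zpowers_iff.mp hw
    refine Subgroup.mem_zpowers_iff.mpr ⟨n, ?_⟩
    rw [← hz n] at hn
    have h1 : g * u ^ n = g * w := mul_right_cancel hn
    exact mul_left_cancel h1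

/-- P9b: the hypothesis on pairs contains the one on elements -/
theorem elements_of_pairs {D : Subgroup G} {e : MonoidAlgebra k G}
    (h : NilpotentPairs D e) : NilpotentElements D e where
  simple := h.simple
  one := fun q hq u hu b hb =>
    one_of h q hq (Subgroup.zpowers u) ((Subgroup.zpowers_le).mpr hu) (cent u) (cent_eq u) b
      hb.1 hb.2
  fus := by
    intro q hq u hu v hv b b' hb hb' g hg hgb
    obtain ⟨d, hd, hdu⟩ := fus_of h q hq (Subgroup.zpowers u) (Subgroup.zpowers v)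
      ((Subgroup.zpowers_le).mpr hu) ((Subgroup.zpowers_le).mpr hv) (cent u) (cent v) (cent_eq u)
      (cent_eq v) b b' hb.1 hb'.1 hb.2 hb'.2 g (zpowers_iff u v g hg) hgb
    exact ⟨d, hd, by rw [hdu u (Subgroup.mem_zpowers u), hg]⟩

end pairs

section loc

variable {k : Type} [Field k] [IsAlgClosed k] [CharP k 2] {G : Type} [Group G] [Fintype G]
  (D : Subgroup G) (hD : IsPGroup 2 D) (ē : MonoidAlgebra k G) (S : SimpleQuot ē)
  (i : MonoidAlgebra k G) (hi : i * i = i) (hie : i * ē = i) (hiD : Cen D i)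
  (hlam : S.lam i ≠ 0)

theorem resQ_ne_zero (hD : IsPGroup 2 D) (q : MonoidAlgebra k G) (hqD : Cen D q)
    (lam : MonoidAlgebra k G →ₗ[k] k) (hl : ∀ a b, lam (a * b) = lam (b * a))
    (hlq : lam q ≠ 0) (Q : Subgroup G) (hQ : Q ≤ D) (H : Subgroup G)
    (hH : H = Subgroup.centralizer (Q : Set G)) : res H q ≠ 0 := by
  intro h0
  apply hlq
  rw [lam_res Q (hD.to_le hQ) H hH lam hl q (cen_mono D hqD hQ), h0, map_zero, map_zero]

theorem belowQ_of (hD : IsPGroup 2 D) (q : MonoidAlgebra k G) (hqD : Cen D q)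
    (hiD : Cen D i) (hqi : q * i = q)
    (lam : MonoidAlgebra k G →ₗ[k] k) (hl : ∀ a b, lam (a * b) = lam (b * a))
    (hlq : lam q ≠ 0) (Q : Subgroup G) (hQ : Q ≤ D) (H : Subgroup G)
    (hH : H = Subgroup.centralizer (Q : Set G)) (b : MonoidAlgebra k H)
    (hib : res H i * b = res H i) : res H q * b ≠ 0 := by
  have h1 : res H q = res H q * res H i := by
    rw [← res_mul Q (hD.to_le hQ) H hH q i (cen_mono D hqD hQ) (cen_mono D hiD hQ), hqi]
  have h2 : res H q * b = res H q := by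
    rw [h1, mul_assoc, hib]
  rw [h2]
  exact resQ_ne_zero D hD q hqD lam hl hlq Q hQ H hH

include hi hie hiD hlam in
theorem locK_of (hD : IsPGroup 2 D)
    (hH : ∀ a, Cen D a → i * a = a → a * i = a → ¬ IsNilpotent a →
      ∃ (m : ℕ) (x y : Fin m → MonoidAlgebra k G), (∀ l, Cen D (x l)) ∧
        (∀ l, Cen D (y l)) ∧ i = ∑ l, x l * a * y l)
    (hnil : NilpotentPairs D ē) : LocK D i := by
  obtain ⟨q, hq, hqi, hlq⟩ := exists_source D ē S i hi hie hiD hlam hD
  have hqD : Cen D q := hq.2.1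
  constructor
  · intro Q hQ H hHQ
    have hne : res H i ≠ 0 :=
      resQ_ne_zero D hD i hiD S.lam (fun a b => S.lam_comm a b) hlam Q hQ H hHQ
    obtain ⟨b, hb, hib⟩ := exists_block _ hne
    have hib' : res H i * b = res H i := by
      rcases single_block D hD i hi hiD S.lam (fun a b => S.lam_comm a b) hlam hH
        Q hQ H hHQ b hb.2.1 hb.2.2.1 with h | h
      · exact absurd h hib
      · exact h
    refine ⟨b, hb, hib', ?_⟩
    have hone := one_of hnil q hq Q hQ H hHQ b hb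
      (belowQ_of D i hD q hqD hiD hqi S.lam (fun a b => S.lam_comm a b) hlq Q hQ H hHQ b hib')
    exact simpleQuot_of_oneSimple b hb.1 hb.2.1 hb.2.2.1 hone
  · intro Q Q' hQ hQ' H H' hH1 hH2 b b' hb hb' hib hib' g hg hgb
    exact fus_of hnil q hq Q Q' hQ hQ' H H' hH1 hH2 b b' hb hb'
      (belowQ_of D i hD q hqD hiD hqi S.lam (fun a b => S.lam_comm a b) hlq Q hQ H hH1 b hib)
      (belowQ_of D i hD q hqD hiD hqi S.lam (fun a b => S.lam_comm a b) hlq Q' hQ' H' hH2 b' hib')
      g hg hgb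

end loc

variable {O : ValuationSubring ℂ} {G : Type} [Group G] [Fintype G]

/-- P9: the top level -/
theorem exists_lev (h2 : (2 : O) ∈ IsLocalRing.maximalIdeal O) (e : MonoidAlgebra O G)
    (he : IsBlock e) (her : inv' e = e) (S : SimpleQuot (toK O G e)) (x : G)
    (hx : IsDefectClass O e x) (D E : Subgroup G) (hDE : IsDefectPair x D E) (t : G) (ht : t ∈ E)
    (ht' : t ∉ D) (hnil : NilpotentPairs D (toK O G e)) :
    ∃ q, Lev O D t e S q := by
  have hchar : CharP (resK O) 2 := resK_charP O h2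
  have halg : IsAlgClosed (resK O) := resK_isAlgClosed O
  obtain ⟨he0, hee, hec, -⟩ := he
  have hD2 : IsPGroup 2 D := IsPGroup.of_card hDE.2.2.2.1
  have htx := defectPair_t hDE ht ht'
  have hxr : IsConj x x⁻¹ := isConj_iff.mpr ⟨t, htx⟩
  obtain ⟨ī, hī, hīe, hīD, hīψ, hīl, hīH⟩ := exists_ibar O h2 e hee hec her hx hDE S t ht ht'
  exact ⟨ī,
    { ee := hee
      ec := hec
      er := her
      hD := hD2
      tD := fun u hu => conj_mem hDE ht hu
      tt := tt_mem hDE ht ht'
      tn := ht'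
      card := rank_e O h2 e hee hec S x hx hxr D hDE.2.2.2.1
      qq := hī
      qe := hīe
      qD := hīD
      qt := hīψ
      lam := hīl
      loc := locK_of D (toK O G e) S ī hī hīe hīD hīl hD2 hīH hnil }⟩

end Pool.Agent.Helper44.NO
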