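import Pool.Agent.Helper32.NO.Defs

/-!
# P6b: from `G` to `C_G(d)`
-/

set_option autoImplicit false
open scoped BigOperators MonoidAlgebra
open Classical

namespace Pool.Agent.Helper44.NO

open Pool.Agent.Helper36.NB Pool.Agent.Helper44.S3 Pool.Agent.Helper32.ND
open Pool.Agent.Helper32.NO

section gen

variable {R : Type} [CommRing R] {G : Type} [Group G]

theorem psi_coeff (t : G) (a : MonoidAlgebra R G) (g : G) :
    (psi t a).coeff g = a.coeff (t⁻¹ * g⁻¹ * t) := by
  rw [psi_apply, mul_el_coeff, el_mul_coeff, inv'_coeff]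
  congr 1
  group

theorem res_psi (H : Subgroup G) (t' : H) (a : MonoidAlgebra R G) :
    res H (psi (t' : G) a) = psi t' (res H a) := by
  ext h
  rw [res_coeff, psi_coeff, psi_coeff, res_coeff]
  rfl

theorem res_cen (H D : Subgroup G) (a : MonoidAlgebra R G) (ha : Cen D a) :
    Cen (D.subgroupOf H) (res H a) := by
  intro u hu
  have h1 := ha (u : G) (Subgroup.mem_subgroupOf.mp hu)
  ext h
  rw [el_mul_coeff, mul_el_coeff, res_coeff, res_coeff]
  have h2 := congrArg (fun x => x.coeff (h : G)) h1
  beta_reduce at h2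
  rw [el_mul_coeff, mul_el_coeff] at h2
  exact h2

/-- A block `b` which contains a nonzero idempotent fixed by `ψ_t` is real. -/
theorem real_block (t : G) (b r : MonoidAlgebra R G) (hb : IsBlock b) (hr : psi t r = r)
    (hr0 : r ≠ 0) (hrb : r * b = r) : inv' b = b := by
  obtain ⟨-, hbb, hbc, hbp⟩ := hb
  have hic : ∀ a, a * inv' b = inv' b * a := by
    intro a
    have h := congrArg inv' (hbc (inv' a))
    rw [inv'_mul, inv'_mul, inv'_inv'] at h
    exact h.symm
  have hii : inv' b * inv' b = inv' b := by rw [← inv'_mul, hbb]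
  have h1 : inv' b * r = r := by
    have h := congrArg (psi t) hrb
    rw [psi_mul, hr] at h
    have h3 : psi t b = inv' b := by
      rw [psi_apply, hic, mul_assoc, el_mul_el_inv, mul_one]
    rwa [h3] at h
  have key : inv' b * b = b := by
    rcases hbp (inv' b) hii hic with h | h
    · exfalso
      apply hr0
      calc r = inv' b * (r * b) := by rw [hrb, h1]
        _ = inv' b * (b * r) := by rw [hbc]
        _ = (inv' b * b) * r := by rw [mul_assoc]
        _ = 0 := by rw [h, zero_mul]
    · exact h
  have h2 := congrArg inv' key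
  rw [inv'_mul, inv'_inv'] at h2
  rw [← h2, key]

end gen

variable {O : ValuationSubring ℂ} {G : Type} [Group G] [Fintype G]

/-- A central idempotent of `O[G]` with real image in `k[G]` is real. -/
theorem real_lift (B : MonoidAlgebra O G) (hB : B * B = B) (hBc : ∀ a, a * B = B * a)
    (h : inv' (toK O G B) = toK O G B) : inv' B = B := by
  have hic : ∀ a, a * inv' B = inv' B * a := by
    intro a
    have h := congrArg inv' (hBc (inv' a))
    rw [inv'_mul, inv'_mul, inv'_inv'] at h
    exact h.symm
  have hii : inv' B * inv' B = inv' B := by rw [← inv'_mul, hB]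
  have hK : toK O G (inv' B) = toK O G B := by rw [toK_inv', h]
  have hKK : toK O G B * toK O G B = toK O G B := toK_idem hB
  have h1 : B - B * inv' B = 0 := by
    apply idem_eq_zero O
    · have e1 : B * (B * inv' B) = B * inv' B := by rw [← mul_assoc, hB]
      have e2 : B * inv' B * B = B * inv' B := by rw [mul_assoc, hBc (inv' B), ← mul_assoc, hB]
      have e3 : B * inv' B * (B * inv' B) = B * inv' B := by
        rw [← mul_assoc, e2, mul_assoc, hii]
      rw [mul_sub, sub_mul, sub_mul, hB, e1, e2, e3, sub_self, sub_zero]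
    · rw [map_sub, map_mul, hK, hKK, sub_self]
  have h2 : inv' B - inv' B * B = 0 := by
    apply idem_eq_zero O
    · have e1 : inv' B * (inv' B * B) = inv' B * B := by rw [← mul_assoc, hii]
      have e2 : inv' B * B * inv' B = inv' B * B := by
        rw [mul_assoc, hic B, ← mul_assoc, hii]
      have e3 : inv' B * B * (inv' B * B) = inv' B * B := by
        rw [← mul_assoc, e2, mul_assoc, hB]
      rw [mul_sub, sub_mul, sub_mul, hii, e1, e2, e3, sub_self, sub_zero]
    · rw [map_sub, map_mul, hK, hKK, sub_self]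
  rw [sub_eq_zero] at h1 h2
  rw [h2, hBc, ← h1]

/-- The rank of a block in terms of the Cartan number. -/
theorem rank_of_cartan (B : MonoidAlgebra O G) (hB : B * B = B) (hBc : ∀ a, a * B = B * a)
    (S : SimpleQuot (toK O G B)) (j : MonoidAlgebra O G) (hj : j * j = j) (hjB : j * B = j)
    (hj1 : (S.ρ (toK O G j)).rank = 1) (c : ℂ)
    (hc : ∀ I : IrrData G, ∑ a, I.chi a (toC O G j) ^ 2 = c) :
    (Nat.card G : ℂ) * (B.coeff 1 : ℂ) = (S.n : ℂ) ^ 2 * c := by
  obtain ⟨I⟩ := exists_irrData G
  have hce : ∀ a, I.chi a (toC O G B) = (S.n : ℂ) * I.chi a (toC O G j) := by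
    intro a
    have h := trace_rank O B hB hBc S j hj hjB hj1 B hB hB (TraceFun.ofChi O I a)
    simp only [TraceFun.ofChi_apply] at h
    rw [h, S.one, Matrix.rank_one, Fintype.card_fin]
  have hCec : ∀ y, y * toC O G B = toC O G B * y := by
    apply E0aux.central_of_el
    intro g
    rw [← toC_el O g, ← map_mul, ← map_mul, hBc]
  have hdj : ∀ a, (I.d a : ℂ) * I.chi a (toC O G j) =
      (S.n : ℂ) * I.chi a (toC O G j) ^ 2 := by
    intro a
    have h := E0aux.chi_mul_central I a (toC O G B) (toC O G j) hCec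
    rw [← map_mul, ← hBc, hjB, hce] at h
    rw [h]
    ring
  rw [← hc I, ← toC_apply, ← E0aux.regular I, Finset.mul_sum]
  refine Finset.sum_congr rfl fun a _ => ?_
  calc (I.d a : ℂ) * I.chi a (toC O G B) = (S.n : ℂ) * ((I.d a : ℂ) * I.chi a (toC O G j)) := by
        rw [hce]; ring
    _ = (S.n : ℂ) ^ 2 * I.chi a (toC O G j) ^ 2 := by rw [hdj]; ring

/-- P6b: from `G` to `C_G(d)` (the local part is P6a) -/
theorem lev_cent (h2 : (2 : O) ∈ IsLocalRing.maximalIdeal O) {D : Subgroup G} {t : G}
    {e : MonoidAlgebra O G} {S : SimpleQuot (toK O G e)} {q : MonoidAlgebra (resK O) G}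
    (hL : Lev O D t e S q) (d : G) (hd : d ∈ D) (hd1 : d ≠ 1) (hdc : ∀ u ∈ D, u * d = d * u)
    (hdt : t * d = d * t) (i : MonoidAlgebra O G) (hiq : toK O G i = q) (L : Loc O i d)
    (hodd : Odd L.m) (hcart : ∀ J : IrrData (cent d), ∑ b, J.chi b (toC O (cent d) L.j) ^ 2 =
      (Nat.card D : ℂ))
    (hloc : LocK (D.subgroupOf (cent d)) (res (cent d) q)) (t' : cent d) (ht' : (t' : G) = t) :
    Lev O (D.subgroupOf (cent d)) t' L.B L.S (res (cent d) q) := by
  have hchar : CharP (resK O) 2 := resK_charP O h2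
  subst hiq
  subst ht'
  have hDle : D ≤ cent d := fun u hu => Subgroup.mem_centralizer_singleton_iff.mpr (hdc u hu)
  have hqd := hL.qD d hd
  have hrr : res (cent d) (toK O G i) * res (cent d) (toK O G i) = res (cent d) (toK O G i) := by
    rw [← res_mul_cent d (orderOf_two hL.hD hd) _ _ hqd hqd, hL.qq]
  have hpsi : psi t' (res (cent d) (toK O G i)) = res (cent d) (toK O G i) := by
    rw [← res_psi, hL.qt]
  have hlam : L.S.lam (res (cent d) (toK O G i)) ≠ 0 := by
    rw [SimpleQuot.lam_apply, trace_eq_rank']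
    · intro h0
      have h1 : (2 : ℕ) ∣ L.m := (CharP.cast_eq_zero_iff (resK O) 2 L.m).mp h0
      exact (Nat.not_even_iff_odd.mpr hodd) (even_iff_two_dvd.mpr h1)
    · rw [← map_mul, hrr]
  have hr0 : res (cent d) (toK O G i) ≠ 0 := by
    intro h0
    apply hlam
    rw [h0, map_zero]
  have hreal : inv' (toK O (cent d) L.B) = toK O (cent d) L.B :=
    real_block t' _ _ L.blk hpsi hr0 L.hib
  have hcardD : Nat.card (D.subgroupOf (cent d)) = Nat.card D :=
    Nat.card_congr (Subgroup.subgroupOfEquivOfLe hDle).toEquiv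
  exact
    { ee := L.hB
      ec := L.hBc
      er := real_lift L.B L.hB L.hBc hreal
      hD := hL.hD.comap_subtype
      tD := fun u hu => by
        rw [Subgroup.mem_subgroupOf] at hu ⊢
        exact hL.tD _ hu
      tt := by
        rw [Subgroup.mem_subgroupOf]
        exact hL.tt
      tn := by
        rw [Subgroup.mem_subgroupOf]
        exact hL.tn
      card := by
        rw [hcardD]
        exact rank_of_cartan L.B L.hB L.hBc L.S L.j L.hj L.hjB L.hj1 _ hcart
      qq := hrr
      qe := L.hib
      qD := res_cen (cent d) D _ hL.qD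
      qt := hpsi
      lam := hlam
      loc := hloc }

end Pool.Agent.Helper44.NO
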